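import Pool.Agent.P.MP_5d374e_co.AlphaToI

set_option autoImplicit false

namespace Pool.Agent.Results.MP_5d374e_co.AlphaIsI

open Pool.Agent.P.MP_5d374e_co

/-- The finite graphs that are both `i`-graphs and `α`-graphs are exactly the `α`-graphs. -/
theorem result {W : Type} [Finite W] (H : SimpleGraph W) :
    (IRealizable H ∧ AlphaRealizable H) ↔ AlphaRealizable H :=
  ⟨fun h => h.2, fun h => ⟨iRealizable_of_alphaRealizable H h, h⟩⟩

end Pool.Agent.Results.MP_5d374e_co.AlphaIsI
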