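import Pool.Agent.P.MP_5d374e_co.S2.Mem
import Pool.Agent.P.MP_5d374e_co.S2.Bounded

set_option autoImplicit false

namespace Pool.Agent.Results.MP_5d374e_co.Answer

open Pool.Agent.P.MP_5d374e_co Pool.Agent.P.MP_5d374e_co.S2

/-- A finite characterisation of the graphs that are both `i`-graphs and `α`-graphs, and the
exact complexity of the class. -/
theorem result :
    (∀ (N : ℕ) (H : SimpleGraph (Fin N)), (IRealizable H ∧ AlphaRealizable H) ↔ 0 < N ∧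
      ∃ (k : ℕ) (B : Fin (N ^ 3 + N ^ 2 + 2 * N) → Set (Fin N)),
        (∀ x, {i | x ∈ B i}.ncard = k) ∧
        (∀ x y, (∀ i, x ∈ B i ↔ y ∈ B i) → x = y) ∧
        (∀ x y, H.Adj x y ↔ {i | x ∈ B i ∧ y ∈ B i}.ncard + 1 = k) ∧
        (∀ J : Set (Fin (N ^ 3 + N ^ 2 + 2 * N)), k ≤ J.ncard →
          (∀ i ∈ J, ∀ j ∈ J, (B i ∩ B j).Nonempty) → ∃ x, ∀ i ∈ J, x ∈ B i)) ∧
    InSigma2 BothLang ∧ ∀ L : Set (List Bool), InSigma2 L →
      ∃ f : List Bool → List Bool, Nonempty (Turing.TM2ComputableInPolyTime id id f) ∧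
        ∀ x, x ∈ L ↔ f x ∈ BothLang :=
  ⟨both_iff_bounded, mem_sigma2, hard⟩

end Pool.Agent.Results.MP_5d374e_co.Answer
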