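import Pool.Agent.P.MP_5d374e_co.Helly

set_option autoImplicit false

namespace Pool.Agent.Results.MP_5d374e_co.HellyCover

open Pool.Agent.P.MP_5d374e_co

/-- Krausz-type characterisation of the finite graphs that are both `i`-graphs and `α`-graphs. -/
theorem result {W : Type} [Finite W] (H : SimpleGraph W) :
    (IRealizable H ∧ AlphaRealizable H) ↔ Nonempty W ∧
      ∃ (k n : ℕ) (B : Fin n → Set W),
        (∀ x, {i | x ∈ B i}.ncard = k) ∧
        (∀ x y, (∀ i, x ∈ B i ↔ y ∈ B i) → x = y) ∧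
        (∀ x y, H.Adj x y ↔ {i | x ∈ B i ∧ y ∈ B i}.ncard + 1 = k) ∧
        (∀ J : Set (Fin n), k ≤ J.ncard → (∀ i ∈ J, ∀ j ∈ J, (B i ∩ B j).Nonempty) →
          ∃ x, ∀ i ∈ J, x ∈ B i) := by
  rw [← alphaRealizable_iff]
  exact ⟨fun h => h.2, fun h => ⟨iRealizable_of_alphaRealizable H h, h⟩⟩

end Pool.Agent.Results.MP_5d374e_co.HellyCover
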