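import Pool.Agent.P.MP_5d374e_co.S2.Mem

set_option autoImplicit false

namespace Pool.Agent.Results.MP_5d374e_co.SigmaTwoComplete

open Pool.Agent.P.MP_5d374e_co.S2

/-- Recognising the graphs that are both `i`-graphs and `α`-graphs is complete for the second
existential level of the polynomial hierarchy. -/
theorem result : InSigma2 BothLang ∧ ∀ L : Set (List Bool), InSigma2 L →
    ∃ f : List Bool → List Bool, Nonempty (Turing.TM2ComputableInPolyTime id id f) ∧
      ∀ x, x ∈ L ↔ f x ∈ BothLang :=
  ⟨mem_sigma2, hard⟩

end Pool.Agent.Results.MP_5d374e_co.SigmaTwoComplete
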